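import Pool.Agent.P8H47.VdwGame

set_option autoImplicit false

/-!
# MP_3e1131_co, Q1: the answer is yes

Maker has a `C(n)`-move strategy for every set `S` of `n` natural numbers, in the game in which
Maker and Breaker alternately claim natural numbers and Maker wants a copy `a S + c`, `a ≥ 1`.

Proof. Let `d` be the dimension in the Hales-Jewett theorem for `n` letters and two colours. For a
large base `b` the points `∑ x_i b ^ i + t b ^ d`, with `x ∈ S ^ d` and `t = 0, 1`, are different,
and the images of combinatorial lines are copies of `S`. Maker pairs the points with the same `x`
and gets a point of every pair within `n ^ d` moves; the value of `t` is a colouring of `S ^ d`, and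
a monochromatic line is a copy of `S` claimed by Maker. So `C(n) = n ^ d` depends on `n` only.
-/

namespace Pool.Agent.Results.MP_3e1131_co.BoundedMoves

open Pool.Agent.P8H47.VdwGame

/-- There is a function `C` such that for every `n` and every set `S` of `n` natural numbers Maker
has a `C(n)`-move strategy for `S`. -/
theorem result : ∃ C : ℕ → ℕ, ∀ n : ℕ, ∀ S : Finset ℕ, S.card = n → HasNMoveStrategy S (C n) := by
  choose C hC using main
  exact ⟨C, hC⟩

end Pool.Agent.Results.MP_3e1131_co.BoundedMoves
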